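import Pool.Agent.W488.IW.Stm

/-! Project IW, part REG: regularity of `wT`, `eT`, `gT`. -/

set_option autoImplicit false

open MeasureTheory Set Filter Topology

namespace Pool.Agent.W932.IW.Reg

open Pool.Agent.W488.IW

/-- facts on a primitive of a bump -/
structure Prim (g P : ℝ → ℝ) (M : ℝ) : Prop where
  pos : 0 ≤ M
  cont : Continuous g
  der : ∀ t, HasDerivAt P (g t) t
  lip : ∀ t t', |P t - P t'| ≤ M * |t - t'|
  bd : ∀ t, |P t| ≤ 2 * M
  low : ∀ t, t ≤ 1 / 2 → P t = 0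
  high : ∀ t, 2 ≤ t → P t = P 2

theorem prim {g : ℝ → ℝ} (hc : Continuous g) {M : ℝ} (hM : ∀ t, |g t| ≤ M)
    (hlow : ∀ t, t ≤ 1 / 2 → g t = 0) (hhigh : ∀ t, 2 ≤ t → g t = 0) :
    Prim g (fun t => ∫ s in (0 : ℝ)..t, g s) M := by
  have hM0 : 0 ≤ M := (abs_nonneg _).trans (hM 0)
  have hder : ∀ t, HasDerivAt (fun t => ∫ s in (0 : ℝ)..t, g s) (g t) t := fun t =>
    intervalIntegral.integral_hasDerivAt_right (hc.intervalIntegrable _ _)
      (hc.stronglyMeasurableAtFilter _ _) hc.continuousAt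
  have hlip : ∀ t t', |(∫ s in (0 : ℝ)..t, g s) - ∫ s in (0 : ℝ)..t', g s| ≤ M * |t - t'| := by
    intro t t'
    rw [intervalIntegral.integral_interval_sub_left (hc.intervalIntegrable _ _)
      (hc.intervalIntegrable _ _)]
    have := intervalIntegral.norm_integral_le_of_norm_le_const (a := t') (b := t) (f := g) (C := M)
      (fun s _ => hM s)
    exact this
  have hl : ∀ t, t ≤ 1 / 2 → ∫ s in (0 : ℝ)..t, g s = 0 := by
    intro t ht
    rw [intervalIntegral.integral_congr (g := fun _ => 0)]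
    · simp
    · intro s hs
      apply hlow
      have := hs.2
      have h1 : max 0 t ≤ 1 / 2 := max_le (by norm_num) ht
      exact this.trans h1
  have hh : ∀ t, 2 ≤ t → ∫ s in (0 : ℝ)..t, g s = ∫ s in (0 : ℝ)..2, g s := by
    intro t ht
    rw [← intervalIntegral.integral_add_adjacent_intervals (b := (2 : ℝ))
      (hc.intervalIntegrable _ _) (hc.intervalIntegrable _ _)]
    have : ∫ s in (2 : ℝ)..t, g s = 0 := by
      rw [intervalIntegral.integral_congr (g := fun _ => 0)]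
      · simp
      · intro s hs
        rw [uIcc_of_le ht] at hs
        exact hhigh s hs.1
    rw [this, add_zero]
  refine ⟨hM0, hc, hder, hlip, ?_, hl, hh⟩
  intro t
  rcases le_or_gt t 0 with h | h
  · rw [hl t (by linarith)]
    simp
    linarith
  · have h0 : ∀ u, 0 ≤ u → u ≤ 2 → |∫ s in (0 : ℝ)..u, g s| ≤ 2 * M := by
      intro u h1 h2
      have := hlip u 0
      simp only [intervalIntegral.integral_same, sub_zero] at this
      rw [abs_of_nonneg h1] at this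
      nlinarith
    rcases le_or_gt t 2 with h2 | h2
    · exact h0 t h.le h2
    · rw [hh t h2.le]
      exact h0 2 (by norm_num) le_rfl

theorem kappa {κ : ℝ → ℝ} (hκ : Bump κ) : ∃ M : ℝ, Prim κ (om1 κ) M ∧
    Prim (fun s => κ s / s) (hh1 κ) M ∧ ∀ t, |κ t| ≤ M := by
  obtain ⟨L, hL⟩ := hκ.lip
  have hc : Continuous κ := hL.continuous
  have hb : ∀ t, |κ t| ≤ 2 * L := by
    intro t
    rcases le_or_gt t (1 / 2) with h | h
    · rw [hκ.low t h]
      simp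
    · rcases le_or_gt t 2 with h2 | h2
      · have h3 := hL.dist_le_mul t 0
        rw [hκ.low 0 (by norm_num), dist_zero_right, dist_zero_right, Real.norm_eq_abs,
          Real.norm_eq_abs, abs_of_pos (show 0 < t by linarith)] at h3
        have h4 := L.coe_nonneg
        nlinarith
      · rw [hκ.high t h2.le]
        simp
  have hq : ∀ s, κ s / s = κ s / max s (1 / 2) := by
    intro s
    rcases le_or_gt s (1 / 2) with h | h
    · rw [hκ.low s h]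
      simp
    · rw [max_eq_left h.le]
  have hL0 := L.coe_nonneg
  have hc2 : Continuous (fun s => κ s / s) := by
    simp only [hq]
    apply hc.div (continuous_id.max continuous_const)
    intro s
    have : (1 : ℝ) / 2 ≤ max s (1 / 2) := le_max_right _ _
    have h2 : (0 : ℝ) < max (id s) (1 / 2) := lt_of_lt_of_le (by norm_num) this
    exact h2.ne'
  have hb2 : ∀ t, |κ t / t| ≤ 4 * L := by
    intro t
    rw [hq, abs_div]
    have h1 : (1 : ℝ) / 2 ≤ max t (1 / 2) := le_max_right _ _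
    rw [abs_of_pos (show 0 < max t (1 / 2) by linarith), div_le_iff₀ (by linarith)]
    have := hb t
    nlinarith
  refine ⟨4 * L, prim hc (fun t => (hb t).trans (by linarith)) hκ.low hκ.high,
    prim hc2 hb2 ?_ ?_, fun t => (hb t).trans (by linarith)⟩
  · intro t ht
    rw [hκ.low t ht, zero_div]
  · intro t ht
    rw [hκ.high t ht, zero_div]

theorem om_der {κ : ℝ → ℝ} {M : ℝ} (h : Prim κ (om1 κ) M) (t : ℝ) :
    HasDerivAt (om κ) (om1 κ t) t := by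
  have hc : Continuous (om1 κ) := continuous_iff_continuousAt.mpr (fun t => (h.der t).continuousAt)
  exact intervalIntegral.integral_hasDerivAt_right (hc.intervalIntegrable _ _)
      (hc.stronglyMeasurableAtFilter _ _) hc.continuousAt

theorem hh_der {κ : ℝ → ℝ} {M : ℝ} (h : Prim (fun s => κ s / s) (hh1 κ) M) (t : ℝ) :
    HasDerivAt (hh κ) (hh1 κ t) t := by
  have hc : Continuous (hh1 κ) := continuous_iff_continuousAt.mpr (fun t => (h.der t).continuousAt)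
  exact intervalIntegral.integral_hasDerivAt_right (hc.intervalIntegrable _ _)
      (hc.stronglyMeasurableAtFilter _ _) hc.continuousAt

theorem c1_of {f g : ℝ → ℝ} (hd : ∀ t, HasDerivAt f (g t) t) (hc : Continuous g) :
    ContDiff ℝ 1 f := by
  rw [contDiff_one_iff_deriv]
  refine ⟨fun t => (hd t).differentiableAt, ?_⟩
  have : deriv f = g := funext fun t => (hd t).deriv
  rw [this]
  exact hc

theorem c2_of {f g : ℝ → ℝ} (hd : ∀ t, HasDerivAt f (g t) t) (hc : ContDiff ℝ 1 g) :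
    ContDiff ℝ 2 f := by
  have h2 : (2 : WithTop ℕ∞) = 1 + 1 := by norm_num
  rw [h2, contDiff_succ_iff_deriv]
  refine ⟨fun t => (hd t).differentiableAt, by simp, ?_⟩
  have : deriv f = g := funext fun t => (hd t).deriv
  rw [this]
  exact hc

/-- the identity `h + ω' = s h'` -/
theorem hh_id {κ : ℝ → ℝ} (hκ : Bump κ) {M : ℝ} (h1 : Prim κ (om1 κ) M)
    (h2 : Prim (fun s => κ s / s) (hh1 κ) M) (t : ℝ) : hh κ t + om1 κ t = t * hh1 κ t := by
  have hd : ∀ t, HasDerivAt (fun t => t * hh1 κ t - hh κ t - om1 κ t) 0 t := by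
    intro t
    have := (((hasDerivAt_id t).mul (h2.der t)).sub (hh_der h2 t)).sub (h1.der t)
    refine this.congr_deriv ?_
    simp only [id, one_mul]
    by_cases ht : t = 0
    · subst ht
      rw [hκ.low 0 (by norm_num)]
      simp
    · field_simp
      ring
  have hconst := is_const_of_deriv_eq_zero (f := fun t => t * hh1 κ t - hh κ t - om1 κ t)
    (fun t => (hd t).differentiableAt) (fun t => (hd t).deriv) t 0
  have e1 : hh κ 0 = 0 := by simp [hh]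
  have e2 : om1 κ 0 = 0 := by simp [om1]
  rw [e1, e2] at hconst
  linarith

theorem XX_pos {ε : ℝ} (hε : 0 < ε) (a : ℂ) : 0 < XX ε a := by
  unfold XX
  apply Real.sqrt_pos.mpr
  positivity

theorem XX_ge {ε : ℝ} (_hε : 0 < ε) (a : ℂ) : ε ≤ XX ε a := by
  unfold XX
  apply Real.le_sqrt_of_sq_le
  nlinarith [sq_nonneg ‖a‖]

theorem norm_le_XX (ε : ℝ) (a : ℂ) : ‖a‖ ≤ XX ε a := by
  unfold XX
  apply Real.le_sqrt_of_sq_le
  nlinarith [sq_nonneg ε]

theorem XX_sq (ε : ℝ) (a : ℂ) : XX ε a ^ 2 = ‖a‖ ^ 2 + ε ^ 2 := by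
  unfold XX
  rw [Real.sq_sqrt (by positivity)]

theorem XX_zero {ε : ℝ} (hε : 0 < ε) : XX ε 0 = ε := by
  unfold XX
  rw [norm_zero]
  have : (0 : ℝ) ^ 2 + ε ^ 2 = ε ^ 2 := by ring
  rw [this, Real.sqrt_sq hε.le]

theorem XX_contDiff {ε : ℝ} (hε : 0 < ε) {n : WithTop ℕ∞} : ContDiff ℝ n (XX ε) := by
  unfold XX
  apply ContDiff.sqrt
  · exact (contDiff_norm_sq ℝ).add contDiff_const
  · intro a
    positivity

theorem XX_lip {ε : ℝ} (hε : 0 < ε) (a a' : ℂ) : |XX ε a - XX ε a'| ≤ ‖a - a'‖ := by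
  have h1 := XX_sq ε a
  have h2 := XX_sq ε a'
  have p1 := XX_pos hε a
  have p2 := XX_pos hε a'
  have n1 := norm_le_XX ε a
  have n2 := norm_le_XX ε a'
  have h3 : (XX ε a - XX ε a') * (XX ε a + XX ε a') = (‖a‖ - ‖a'‖) * (‖a‖ + ‖a'‖) := by
    nlinarith
  have h4 : |XX ε a - XX ε a'| * (XX ε a + XX ε a') = |‖a‖ - ‖a'‖| * (‖a‖ + ‖a'‖) := by
    have := congrArg abs h3
    rwa [abs_mul, abs_mul, abs_of_pos (show 0 < XX ε a + XX ε a' by linarith),
      abs_of_nonneg (show 0 ≤ ‖a‖ + ‖a'‖ by positivity)] at this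
  have h5 : |XX ε a - XX ε a'| * (XX ε a + XX ε a') ≤ |‖a‖ - ‖a'‖| * (XX ε a + XX ε a') := by
    rw [h4]
    apply mul_le_mul_of_nonneg_left _ (abs_nonneg _)
    linarith
  exact (le_of_mul_le_mul_right h5 (by linarith)).trans (abs_norm_sub_norm_le a a')

theorem XX_fst {ε : ℝ} (hε : 0 < ε) (F : ℂ × ℂ) : HasFDerivAt (fun F : ℂ × ℂ => XX ε F.1)
    ((1 / XX ε F.1) • (innerSL ℝ F.1).comp (ContinuousLinearMap.fst ℝ ℂ ℂ)) F := by
  have h1 : HasFDerivAt (fun F : ℂ × ℂ => ‖F.1‖ ^ 2 + ε ^ 2)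
      (2 • (innerSL ℝ F.1).comp (ContinuousLinearMap.fst ℝ ℂ ℂ)) F :=
    (hasFDerivAt_fst.norm_sq).add_const _
  have h2 := h1.sqrt (by positivity)
  refine h2.congr_fderiv ?_
  unfold XX
  ext U <;> simp <;> field_simp

theorem XX_snd {ε : ℝ} (hε : 0 < ε) (F : ℂ × ℂ) : HasFDerivAt (fun F : ℂ × ℂ => XX ε F.2)
    ((1 / XX ε F.2) • (innerSL ℝ F.2).comp (ContinuousLinearMap.snd ℝ ℂ ℂ)) F := by
  have h1 : HasFDerivAt (fun F : ℂ × ℂ => ‖F.2‖ ^ 2 + ε ^ 2)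
      (2 • (innerSL ℝ F.2).comp (ContinuousLinearMap.snd ℝ ℂ ℂ)) F :=
    (hasFDerivAt_snd.norm_sq).add_const _
  have h2 := h1.sqrt (by positivity)
  refine h2.congr_fderiv ?_
  unfold XX
  ext U <;> simp <;> field_simp

/-- first coefficient vector of the gradient -/
noncomputable def A1 (κ : ℝ → ℝ) (ε ϑ : ℝ) (F : ℂ × ℂ) : ℂ :=
  (hh1 κ (XX ε F.1 + XX ε F.2) + om1 κ (XX ε F.1 - XX ε F.2) / XX ε F.1 + ϑ) • F.1

/-- second coefficient vector of the gradient -/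
noncomputable def B1 (κ : ℝ → ℝ) (ε ϑ : ℝ) (F : ℂ × ℂ) : ℂ :=
  (-hh1 κ (XX ε F.1 + XX ε F.2) + (om1 κ (XX ε F.1 + XX ε F.2) -
    om1 κ (XX ε F.1 - XX ε F.2)) / XX ε F.2 + ϑ) • F.2

/-- the gradient -/
noncomputable def GR (κ : ℝ → ℝ) (ε ϑ : ℝ) (F : ℂ × ℂ) : ℂ × ℂ →L[ℝ] ℝ :=
  (innerSL ℝ (A1 κ ε ϑ F)).comp (ContinuousLinearMap.fst ℝ ℂ ℂ) +
    (innerSL ℝ (B1 κ ε ϑ F)).comp (ContinuousLinearMap.snd ℝ ℂ ℂ)

theorem wT_der {κ : ℝ → ℝ} (hκ : Bump κ) {M : ℝ} (h1 : Prim κ (om1 κ) M)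
    (h2 : Prim (fun s => κ s / s) (hh1 κ) M) {ε : ℝ} (hε : 0 < ε) (ϑ : ℝ) (F : ℂ × ℂ) :
    HasFDerivAt (wT κ ε ϑ) (GR κ ε ϑ F) F := by
  have hX := XX_fst hε F
  have hY := XX_snd hε F
  have hS := hX.add hY
  have hV := hX.sub hY
  have d1 := (hh_der h2 (XX ε F.1 + XX ε F.2)).comp_hasFDerivAt F hS
  have d2 := (om_der h1 (XX ε F.1 + XX ε F.2)).comp_hasFDerivAt F hS
  have d3 := (om_der h1 (XX ε F.1 - XX ε F.2)).comp_hasFDerivAt F hV
  have d4 : HasFDerivAt (fun F : ℂ × ℂ => ‖F.1‖ ^ 2)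
      (2 • (innerSL ℝ F.1).comp (ContinuousLinearMap.fst ℝ ℂ ℂ)) F := hasFDerivAt_fst.norm_sq
  have d5 : HasFDerivAt (fun F : ℂ × ℂ => ‖F.2‖ ^ 2)
      (2 • (innerSL ℝ F.2).comp (ContinuousLinearMap.snd ℝ ℂ ℂ)) F := hasFDerivAt_snd.norm_sq
  have d6 := ((((hV.mul d1).add d2).mul_const (1 / 2 : ℝ)).add d3).add
    ((d4.add d5).const_mul (ϑ / 2))
  have hid := hh_id hκ h1 h2 (XX ε F.1 + XX ε F.2)
  have pX := XX_pos hε F.1
  have pY := XX_pos hε F.2
  have hfun : wT κ ε ϑ = fun F : ℂ × ℂ => (((XX ε F.1 - XX ε F.2) * hh κ (XX ε F.1 + XX ε F.2) +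
      om κ (XX ε F.1 + XX ε F.2)) * (1 / 2) + om κ (XX ε F.1 - XX ε F.2)) +
      ϑ / 2 * (‖F.1‖ ^ 2 + ‖F.2‖ ^ 2) := by
    funext F
    unfold wT wW fW
    ring
  rw [hfun]
  refine HasFDerivAt.congr_fderiv d6 ?_
  have hh0 : hh κ (XX ε F.1 + XX ε F.2) = (XX ε F.1 + XX ε F.2) * hh1 κ (XX ε F.1 + XX ε F.2) -
    om1 κ (XX ε F.1 + XX ε F.2) := by linarith
  unfold GR A1 B1
  apply ContinuousLinearMap.ext
  intro U
  simp only [add_apply, smul_apply,
    sub_apply, ContinuousLinearMap.comp_apply, smul_eq_mul,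
    ContinuousLinearMap.coe_fst', ContinuousLinearMap.coe_snd', innerSL_apply_apply,
    inner_smul_left, Pi.sub_apply, Pi.add_apply, Function.comp_apply]
  rw [hh0]
  generalize hh1 κ (XX ε F.1 + XX ε F.2) = h'
  generalize om1 κ (XX ε F.1 + XX ε F.2) = oS
  generalize om1 κ (XX ε F.1 - XX ε F.2) = oV
  generalize inner ℝ F.1 U.1 = u
  generalize inner ℝ F.2 U.2 = v
  simp only [conj_trivial]
  field_simp
  ring

theorem lip1 {g P : ℝ → ℝ} {M : ℝ} (p : Prim g P M) {a a' : ℂ} {S S' N : ℝ} (ha : ‖a‖ ≤ S)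
    (ha' : ‖a'‖ ≤ S') (h1 : |S - S'| ≤ 2 * N) (h2 : ‖a - a'‖ ≤ N) :
    ‖P S • a - P S' • a'‖ ≤ 6 * M * N := by
  have hM := p.pos
  have hN : 0 ≤ N := (norm_nonneg _).trans h2
  have key : ∀ (a a' : ℂ) (S S' : ℝ), ‖a‖ ≤ S → |S - S'| ≤ 2 * N → ‖a - a'‖ ≤ N → S ≤ S' →
      ‖P S • a - P S' • a'‖ ≤ 6 * M * N := by
    intro a a' S S' ha h1 h2 hSS
    have e : P S • a - P S' • a' = (P S - P S') • a + P S' • (a - a') := by
      rw [sub_smul, smul_sub]
      abel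
    rw [e]
    refine (norm_add_le _ _).trans ?_
    rw [norm_smul, norm_smul, Real.norm_eq_abs, Real.norm_eq_abs]
    have i1 : |P S'| * ‖a - a'‖ ≤ 2 * M * N := mul_le_mul (p.bd S') h2 (norm_nonneg _) (by positivity)
    have i2 : |P S - P S'| * ‖a‖ ≤ 4 * M * N := by
      rcases le_or_gt 2 S with h | h
      · rw [p.high S h, p.high S' (h.trans hSS), sub_self, abs_zero, zero_mul]
        positivity
      · have i3 : |P S - P S'| ≤ M * (2 * N) :=
          (p.lip S S').trans (mul_le_mul_of_nonneg_left h1 hM)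
        calc |P S - P S'| * ‖a‖ ≤ (M * (2 * N)) * 2 :=
              mul_le_mul i3 (ha.trans h.le) (norm_nonneg _) (by positivity)
          _ = 4 * M * N := by ring
    linarith
  rcases le_total S S' with h | h
  · exact key a a' S S' ha h1 h2 h
  · rw [norm_sub_rev]
    exact key a' a S' S ha' (by rwa [abs_sub_comm]) (by rwa [norm_sub_rev]) h

theorem lip2 {g P : ℝ → ℝ} {M : ℝ} (p : Prim g P M) {u u' : ℂ} {V V' N C : ℝ} (hu : ‖u‖ ≤ 1)
    (h1 : |V - V'| ≤ 2 * N) (h2 : ‖u - u'‖ ≤ C * N) :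
    ‖P V • u - P V' • u'‖ ≤ (2 * M + 2 * M * C) * N := by
  have hM := p.pos
  have e : P V • u - P V' • u' = (P V - P V') • u + P V' • (u - u') := by
    rw [sub_smul, smul_sub]
    abel
  rw [e]
  refine (norm_add_le _ _).trans ?_
  rw [norm_smul, norm_smul, Real.norm_eq_abs, Real.norm_eq_abs]
  have i1 : |P V'| * ‖u - u'‖ ≤ 2 * M * (C * N) := mul_le_mul (p.bd V') h2 (norm_nonneg _) (by positivity)
  have i3 : |P V - P V'| ≤ M * (2 * N) := (p.lip V V').trans (mul_le_mul_of_nonneg_left h1 hM)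
  have i2 : |P V - P V'| * ‖u‖ ≤ (M * (2 * N)) * 1 :=
    mul_le_mul i3 hu (norm_nonneg _) ((abs_nonneg _).trans i3)
  linarith

theorem unit_le {ε : ℝ} (hε : 0 < ε) (a : ℂ) : ‖(1 / XX ε a) • a‖ ≤ 1 := by
  have p := XX_pos hε a
  rw [norm_smul, Real.norm_eq_abs, abs_of_pos (by positivity), one_div, inv_mul_le_iff₀ p, mul_one]
  exact norm_le_XX ε a

theorem unit_lip {ε : ℝ} (hε : 0 < ε) (a a' : ℂ) :
    ‖(1 / XX ε a) • a - (1 / XX ε a') • a'‖ ≤ 2 / ε * ‖a - a'‖ := by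
  have p := XX_pos hε a
  have p' := XX_pos hε a'
  have g := XX_ge hε a
  have e : (1 / XX ε a) • a - (1 / XX ε a') • a' =
      (1 / XX ε a) • (a - a') + ((XX ε a' - XX ε a) / XX ε a) • ((1 / XX ε a') • a') := by
    rw [smul_smul, smul_sub]
    have : (XX ε a' - XX ε a) / XX ε a * (1 / XX ε a') = 1 / XX ε a - 1 / XX ε a' := by
      field_simp
    rw [this, sub_smul]
    abel
  rw [e]
  refine (norm_add_le _ _).trans ?_
  have hinv : 1 / XX ε a ≤ 1 / ε := one_div_le_one_div_of_le hε g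
  have i1 : ‖(1 / XX ε a) • (a - a')‖ ≤ 1 / ε * ‖a - a'‖ := by
    rw [norm_smul, Real.norm_eq_abs, abs_of_pos (by positivity)]
    exact mul_le_mul_of_nonneg_right hinv (norm_nonneg _)
  have i2 : ‖((XX ε a' - XX ε a) / XX ε a) • ((1 / XX ε a') • a')‖ ≤ 1 / ε * ‖a - a'‖ := by
    rw [norm_smul, Real.norm_eq_abs, abs_div, abs_of_pos p]
    have i3 : |XX ε a' - XX ε a| / XX ε a ≤ 1 / ε * ‖a - a'‖ := by
      have i4 := XX_lip hε a a'
      rw [abs_sub_comm] at i4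
      calc |XX ε a' - XX ε a| / XX ε a ≤ ‖a - a'‖ / XX ε a := div_le_div_of_nonneg_right i4 p.le
        _ = 1 / XX ε a * ‖a - a'‖ := by ring
        _ ≤ _ := mul_le_mul_of_nonneg_right hinv (norm_nonneg _)
    calc _ ≤ (1 / ε * ‖a - a'‖) * 1 :=
          mul_le_mul i3 (unit_le hε a') (norm_nonneg _) (by positivity)
      _ = _ := mul_one _
  calc _ ≤ 1 / ε * ‖a - a'‖ + 1 / ε * ‖a - a'‖ := add_le_add i1 i2
    _ = _ := by ring

theorem GR_lip {κ : ℝ → ℝ} {M : ℝ} (h1 : Prim κ (om1 κ) M)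
    (h2 : Prim (fun s => κ s / s) (hh1 κ) M) {ε : ℝ} (hε : 0 < ε) (ϑ : ℝ) (F F' : ℂ × ℂ) :
    ‖GR κ ε ϑ F - GR κ ε ϑ F'‖ ≤ (18 * M + 12 * M * (2 / ε) + 2 * |ϑ|) * ‖F - F'‖ := by
  set N := ‖F - F'‖ with hN
  have n1 : ‖F.1 - F'.1‖ ≤ N := norm_fst_le (F - F')
  have n2 : ‖F.2 - F'.2‖ ≤ N := norm_snd_le (F - F')
  have x1 := (XX_lip hε F.1 F'.1).trans n1
  have x2 := (XX_lip hε F.2 F'.2).trans n2
  have hM := h1.pos
  have hN0 : 0 ≤ N := norm_nonneg _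
  have hS : |(XX ε F.1 + XX ε F.2) - (XX ε F'.1 + XX ε F'.2)| ≤ 2 * N := by
    have e : (XX ε F.1 + XX ε F.2) - (XX ε F'.1 + XX ε F'.2) =
      (XX ε F.1 - XX ε F'.1) + (XX ε F.2 - XX ε F'.2) := by ring
    rw [e]
    exact (abs_add_le _ _).trans (by linarith)
  have hV : |(XX ε F.1 - XX ε F.2) - (XX ε F'.1 - XX ε F'.2)| ≤ 2 * N := by
    have e : (XX ε F.1 - XX ε F.2) - (XX ε F'.1 - XX ε F'.2) =
      (XX ε F.1 - XX ε F'.1) - (XX ε F.2 - XX ε F'.2) := by ring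
    rw [e]
    exact (abs_sub _ _).trans (by linarith)
  have pX := XX_pos hε F.1
  have pY := XX_pos hε F.2
  have pX' := XX_pos hε F'.1
  have pY' := XX_pos hε F'.2
  have u1 : ‖(1 / XX ε F.1) • F.1 - (1 / XX ε F'.1) • F'.1‖ ≤ 2 / ε * N :=
    (unit_lip hε _ _).trans (mul_le_mul_of_nonneg_left n1 (by positivity))
  have u2 : ‖(1 / XX ε F.2) • F.2 - (1 / XX ε F'.2) • F'.2‖ ≤ 2 / ε * N :=
    (unit_lip hε _ _).trans (mul_le_mul_of_nonneg_left n2 (by positivity))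
  have a1 := lip1 h2 (a := F.1) (a' := F'.1) (S := XX ε F.1 + XX ε F.2)
    (S' := XX ε F'.1 + XX ε F'.2) ((norm_le_XX ε _).trans (by linarith))
    ((norm_le_XX ε _).trans (by linarith)) hS n1
  have a2 := lip2 h1 (unit_le hε F.1) hV u1
  have b1 := lip1 h2 (a := F.2) (a' := F'.2) (S := XX ε F.1 + XX ε F.2)
    (S' := XX ε F'.1 + XX ε F'.2) ((norm_le_XX ε _).trans (by linarith))
    ((norm_le_XX ε _).trans (by linarith)) hS n2
  have b2 := lip2 h1 (unit_le hε F.2) hS u2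
  have b3 := lip2 h1 (unit_le hε F.2) hV u2
  have hA : ‖A1 κ ε ϑ F - A1 κ ε ϑ F'‖ ≤ (8 * M + 2 * M * (2 / ε) + |ϑ|) * N := by
    have e : A1 κ ε ϑ F - A1 κ ε ϑ F' =
        (hh1 κ (XX ε F.1 + XX ε F.2) • F.1 - hh1 κ (XX ε F'.1 + XX ε F'.2) • F'.1) +
        (om1 κ (XX ε F.1 - XX ε F.2) • ((1 / XX ε F.1) • F.1) -
          om1 κ (XX ε F'.1 - XX ε F'.2) • ((1 / XX ε F'.1) • F'.1)) + ϑ • (F.1 - F'.1) := by
      unfold A1
      rw [add_smul, add_smul, add_smul, add_smul, smul_smul, smul_smul, smul_sub, mul_one_div,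
        mul_one_div]
      abel
    rw [e]
    refine (norm_add_le _ _).trans ?_
    have t1 := norm_add_le (hh1 κ (XX ε F.1 + XX ε F.2) • F.1 -
      hh1 κ (XX ε F'.1 + XX ε F'.2) • F'.1) (om1 κ (XX ε F.1 - XX ε F.2) • ((1 / XX ε F.1) • F.1) -
          om1 κ (XX ε F'.1 - XX ε F'.2) • ((1 / XX ε F'.1) • F'.1))
    have t2 : ‖ϑ • (F.1 - F'.1)‖ ≤ |ϑ| * N := by
      rw [norm_smul, Real.norm_eq_abs]
      exact mul_le_mul_of_nonneg_left n1 (abs_nonneg _)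
    linarith
  have hB : ‖B1 κ ε ϑ F - B1 κ ε ϑ F'‖ ≤ (10 * M + 4 * M * (2 / ε) + |ϑ|) * N := by
    have e : B1 κ ε ϑ F - B1 κ ε ϑ F' =
        -(hh1 κ (XX ε F.1 + XX ε F.2) • F.2 - hh1 κ (XX ε F'.1 + XX ε F'.2) • F'.2) +
        (om1 κ (XX ε F.1 + XX ε F.2) • ((1 / XX ε F.2) • F.2) -
          om1 κ (XX ε F'.1 + XX ε F'.2) • ((1 / XX ε F'.2) • F'.2)) -
        (om1 κ (XX ε F.1 - XX ε F.2) • ((1 / XX ε F.2) • F.2) -
          om1 κ (XX ε F'.1 - XX ε F'.2) • ((1 / XX ε F'.2) • F'.2)) + ϑ • (F.2 - F'.2) := by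
      unfold B1
      simp only [add_smul, smul_smul, smul_sub, mul_one_div, sub_div, sub_smul, neg_smul]
      abel
    rw [e]
    refine (norm_add_le _ _).trans ?_
    have t1 := norm_sub_le (-(hh1 κ (XX ε F.1 + XX ε F.2) • F.2 -
        hh1 κ (XX ε F'.1 + XX ε F'.2) • F'.2) +
        (om1 κ (XX ε F.1 + XX ε F.2) • ((1 / XX ε F.2) • F.2) -
          om1 κ (XX ε F'.1 + XX ε F'.2) • ((1 / XX ε F'.2) • F'.2)))
        (om1 κ (XX ε F.1 - XX ε F.2) • ((1 / XX ε F.2) • F.2) -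
          om1 κ (XX ε F'.1 - XX ε F'.2) • ((1 / XX ε F'.2) • F'.2))
    have t3 := norm_add_le (-(hh1 κ (XX ε F.1 + XX ε F.2) • F.2 -
        hh1 κ (XX ε F'.1 + XX ε F'.2) • F'.2))
        (om1 κ (XX ε F.1 + XX ε F.2) • ((1 / XX ε F.2) • F.2) -
          om1 κ (XX ε F'.1 + XX ε F'.2) • ((1 / XX ε F'.2) • F'.2))
    rw [norm_neg] at t3
    have t2 : ‖ϑ • (F.2 - F'.2)‖ ≤ |ϑ| * N := by
      rw [norm_smul, Real.norm_eq_abs]
      exact mul_le_mul_of_nonneg_left n2 (abs_nonneg _)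
    linarith
  have hG : ‖GR κ ε ϑ F - GR κ ε ϑ F'‖ ≤ ‖A1 κ ε ϑ F - A1 κ ε ϑ F'‖ +
      ‖B1 κ ε ϑ F - B1 κ ε ϑ F'‖ := by
    have e : GR κ ε ϑ F - GR κ ε ϑ F' =
        (innerSL ℝ (A1 κ ε ϑ F - A1 κ ε ϑ F')).comp (ContinuousLinearMap.fst ℝ ℂ ℂ) +
        (innerSL ℝ (B1 κ ε ϑ F - B1 κ ε ϑ F')).comp (ContinuousLinearMap.snd ℝ ℂ ℂ) := by
      unfold GR
      rw [map_sub, map_sub, ContinuousLinearMap.sub_comp, ContinuousLinearMap.sub_comp]
      abel
    rw [e]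
    refine (norm_add_le _ _).trans (add_le_add ?_ ?_)
    · refine (ContinuousLinearMap.opNorm_comp_le _ _).trans ?_
      rw [innerSL_apply_norm]
      calc _ ≤ ‖A1 κ ε ϑ F - A1 κ ε ϑ F'‖ * 1 :=
            mul_le_mul_of_nonneg_left (ContinuousLinearMap.norm_fst_le _ _ _) (norm_nonneg _)
        _ = _ := mul_one _
    · refine (ContinuousLinearMap.opNorm_comp_le _ _).trans ?_
      rw [innerSL_apply_norm]
      calc _ ≤ ‖B1 κ ε ϑ F - B1 κ ε ϑ F'‖ * 1 :=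
            mul_le_mul_of_nonneg_left (ContinuousLinearMap.norm_snd_le _ _ _) (norm_nonneg _)
        _ = _ := mul_one _
  have hε2 : 0 ≤ 2 / ε := by positivity
  have hx : 0 ≤ M * (2 / ε) * N := by positivity
  linarith

theorem main : S_REG := by
  intro κ hκ ε ϑ hε hε8
  obtain ⟨M, h1, h2, -⟩ := kappa hκ
  have co : ContDiff ℝ 1 (om1 κ) := c1_of h1.der h1.cont
  have ch : ContDiff ℝ 1 (hh1 κ) := c1_of h2.der h2.cont
  have co2 : ContDiff ℝ 2 (om κ) := c2_of (om_der h1) co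
  have ch2 : ContDiff ℝ 2 (hh κ) := c2_of (hh_der h2) ch
  have cX : ∀ n : WithTop ℕ∞, ContDiff ℝ n (fun F : ℂ × ℂ => XX ε F.1) := fun n =>
    (XX_contDiff hε).comp contDiff_fst
  have cY : ∀ n : WithTop ℕ∞, ContDiff ℝ n (fun F : ℂ × ℂ => XX ε F.2) := fun n =>
    (XX_contDiff hε).comp contDiff_snd
  have c1om : ContDiff ℝ 1 (om κ) := co2.of_le (by norm_num)
  have homz : ∀ t, 0 ≤ t → t ≤ 1 / 2 → om κ t = 0 := by
    intro t h0 ht
    unfold om
    rw [intervalIntegral.integral_congr (g := fun _ => 0)]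
    · simp
    · intro s hs
      rw [uIcc_of_le h0] at hs
      exact h1.low s (hs.2.trans ht)
  have hfd : fderiv ℝ (wT κ ε ϑ) = GR κ ε ϑ := funext fun F => (wT_der hκ h1 h2 hε ϑ F).fderiv
  refine ⟨?_, ⟨18 * M + 12 * M * (2 / ε) + 2 * |ϑ|, ?_⟩, ?_, ?_, ?_, ?_⟩
  · unfold wT wW fW
    have cs := (cX 2).add (cY 2)
    have cd := (cX 2).sub (cY 2)
    refine ContDiff.add (ContDiff.add (ContDiff.div_const (ContDiff.add (cd.mul (ch2.comp cs))
      (co2.comp cs)) _) (co2.comp cd)) (contDiff_const.mul ?_)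
    exact ((contDiff_norm_sq ℝ).comp contDiff_fst).add ((contDiff_norm_sq ℝ).comp contDiff_snd)
  · intro F
    rw [hfd]
    have hM := h1.pos
    apply norm_fderiv_le_of_lip' ℝ (by positivity)
    exact Filter.Eventually.of_forall (fun F' => GR_lip h1 h2 hε ϑ F' F)
  · unfold wT wW fW
    have e1 : XX ε (0 : ℂ × ℂ).1 = ε := XX_zero hε
    have e2 : XX ε (0 : ℂ × ℂ).2 = ε := XX_zero hε
    rw [e1, e2, homz _ (by linarith) (by linarith), sub_self, homz 0 le_rfl (by norm_num)]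
    simp
  · rw [hfd]
    unfold GR A1 B1
    simp
  · unfold eT EE
    refine ContDiff.add (ContDiff.div ?_ ((cX 1).pow 2) ?_) contDiff_const
    · exact ((contDiff_const.mul (cX 1)).mul (co.comp ((cX 1).sub (cY 1)))).sub
        (c1om.comp ((cX 1).sub (cY 1)))
    · intro F
      exact (pow_pos (XX_pos hε F.1) 2).ne'
  · unfold gT GG
    refine ContDiff.sub (ContDiff.div ?_ ((cY 1).pow 2) ?_) contDiff_const
    · exact (((c1om.comp ((cX 1).add (cY 1))).neg).add ((contDiff_const.mul (cY 1)).mul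
        (co.comp ((cX 1).sub (cY 1))))).add (c1om.comp ((cX 1).sub (cY 1)))
    · intro F
      exact (pow_pos (XX_pos hε F.2) 2).ne'

end Pool.Agent.W932.IW.Reg
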